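import Mathlib
import Pool.Agent.Q136.PMat

/-!
# An inertia that does not come from a bicoloring of the complement

The semisimple graph `G` on `{0, ..., 5}` is the complement of the disjoint union of the isolated
vertex `0` and the star with center `1` and leaves `2, 3, 4, 5`.  It is full-rank typical.  All
completions of a certain `G`-partial matrix have the inertia `(3, 3, 0)`, but the complement of
`G` has no proper bicoloring with three red and three blue vertices.
-/

open Matrix Finset Q136.PMat Q136.Inertia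

namespace Pool.Agent.Results.MP_97e4cf_co.BicoloringFails

/-- The graph whose complement consists of the isolated vertex `0` and the star with center `1`
and leaves `2, 3, 4, 5`: all loops and edges but the four edges `s(1, l)`, `l ≥ 2`. -/
def G6 : Graph 6 := {x | ∀ l : Fin 6, 2 ≤ l → x ≠ s(1, l)}

lemma not_mem_G6 (i j : Fin 6) : s(i, j) ∉ G6 ↔ (i = 1 ∧ 2 ≤ j) ∨ (j = 1 ∧ 2 ≤ i) := by
  simp only [G6, Set.mem_ofPred_eq]
  constructor
  · intro h
    push Not at h
    obtain ⟨l, hl, h⟩ := h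
    rw [Sym2.eq_iff] at h
    rcases h with ⟨h1, h2⟩ | ⟨h1, h2⟩
    · exact Or.inl ⟨h1, h2 ▸ hl⟩
    · exact Or.inr ⟨h2, h1 ▸ hl⟩
  · rintro (⟨h1, h2⟩ | ⟨h1, h2⟩) h
    · exact h j h2 (by rw [h1])
    · exact h i h2 (by rw [h1, Sym2.eq_swap])

/-- the coloring that shows that `G6` is full-rank typical -/
def col : Fin 6 → Bool := fun i => decide (i = 0 ∨ i = 1)

lemma proper_col : IsProperBicoloring G6 col := by
  intro i j h
  rw [not_mem_G6] at h
  revert i j
  decide

/-- the matrix of a completion, with the four unspecified entries `a, b, c, d` -/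
def mat (a b c d : ℝ) : Matrix (Fin 6) (Fin 6) ℝ :=
  !![0, 1, 0, 0, 0, 0;
     1, 0, a, b, c, d;
     0, a, 1, 0, 0, 0;
     0, b, 0, 1, 0, 0;
     0, c, 0, 0, -1, 0;
     0, d, 0, 0, 0, -1]

lemma mat_symm (a b c d : ℝ) (i j : Fin 6) : mat a b c d i j = mat a b c d j i := by
  fin_cases i <;> fin_cases j <;> simp [mat]

/-- the partial matrix -/
noncomputable def M6 : PartialMatrix G6 := fun x =>
  Sym2.lift ⟨fun i j => mat 0 0 0 0 i j, mat_symm 0 0 0 0⟩ (x : Sym2 (Fin 6))

lemma mat_known (a b c d : ℝ) (i j : Fin 6) (h : ¬ ((i = 1 ∧ 2 ≤ j) ∨ (j = 1 ∧ 2 ≤ i))) :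
    mat a b c d i j = mat 0 0 0 0 i j := by
  fin_cases i <;> fin_cases j <;> first | (exact absurd (by decide) h) | simp [mat]

lemma mat_of_completion (A : Matrix (Fin 6) (Fin 6) ℝ) (hA : IsCompletion M6 A) :
    A = mat (A 1 2) (A 1 3) (A 1 4) (A 1 5) := by
  obtain ⟨h1, h2⟩ := hA
  have hs : ∀ i j, A i j = A j i := fun i j => congrFun (congrFun h1.symm i) j
  have hin : ∀ i j : Fin 6, ¬ ((i = 1 ∧ 2 ≤ j) ∨ (j = 1 ∧ 2 ≤ i)) →
      A i j = mat 0 0 0 0 i j := by
    intro i j h
    have hG : s(i, j) ∈ G6 := by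
      by_contra hcon
      exact h ((not_mem_G6 i j).1 hcon)
    rw [h2 i j hG]
    rfl
  have hrow : ∀ j : Fin 6, 2 ≤ j → A 1 j = mat (A 1 2) (A 1 3) (A 1 4) (A 1 5) 1 j := by
    intro j hj
    fin_cases j
    · exact absurd hj (by decide)
    · exact absurd hj (by decide)
    · simp [mat]
    · simp [mat]
    · simp [mat]
    · simp [mat]
  ext i j
  by_cases hij : (i = 1 ∧ 2 ≤ j) ∨ (j = 1 ∧ 2 ≤ i)
  · rcases hij with ⟨rfl, h⟩ | ⟨rfl, h⟩
    · exact hrow j h
    · rw [hs, mat_symm]
      exact hrow i h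
  · exact (hin i j hij).trans (mat_known _ _ _ _ i j hij).symm

/-- the congruence -/
def P (a b c d : ℝ) : Matrix (Fin 6) (Fin 6) ℝ :=
  !![1, 1, -a, -b, -c, -d;
     1, -1, 0, 0, 0, 0;
     0, 0, 1, 0, 0, 0;
     0, 0, 0, 1, 0, 0;
     0, 0, 0, 0, 1, 0;
     0, 0, 0, 0, 0, 1]

/-- its inverse -/
noncomputable def Pinv (a b c d : ℝ) : Matrix (Fin 6) (Fin 6) ℝ :=
  !![1/2, 1/2, a/2, b/2, c/2, d/2;
     1/2, -1/2, a/2, b/2, c/2, d/2;
     0, 0, 1, 0, 0, 0;
     0, 0, 0, 1, 0, 0;
     0, 0, 0, 0, 1, 0;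
     0, 0, 0, 0, 0, 1]

/-- the diagonal form -/
def w : Fin 6 → ℝ := ![2, -2, 1, 1, -1, -1]

lemma P_mul (a b c d : ℝ) : P a b c d * Pinv a b c d = 1 := by
  ext i j
  fin_cases i <;> fin_cases j <;>
    simp [P, Pinv, Matrix.mul_apply, Fin.sum_univ_succ] <;> ring

lemma congr_eq (a b c d : ℝ) : (P a b c d)ᵀ * mat a b c d * P a b c d = diagonal w := by
  ext i j
  fin_cases i <;> fin_cases j <;>
    simp [P, mat, w, Matrix.mul_apply, Fin.sum_univ_succ, diagonal] <;> ring

/-- **The conjecture fails for special partial matrices.** The graph `G6` is full-rank typical, the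
partial matrix `M6` is minimally completable to full rank, and all its completions have the
inertia `(3, 3, 0)`; but the complement of `G6` has no proper bicoloring with three red and three
blue vertices. -/
theorem result : FullRankTypical G6 ∧ MinimallyCompletable M6 6 ∧ HasInertia M6 3 3 ∧
    ¬ ∃ c : Fin 6 → Bool, IsProperBicoloring G6 c ∧ (univ.filter (fun i => c i = true)).card = 3 ∧
      (univ.filter (fun i => c i = false)).card = 3 := by
  have hdet : ∀ A, IsCompletion M6 A → A.det ≠ 0 := by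
    intro A hA h0
    have h1 := congr_eq (A 1 2) (A 1 3) (A 1 4) (A 1 5)
    rw [← mat_of_completion A hA] at h1
    have h2 := congrArg Matrix.det h1
    rw [det_mul, det_mul, h0, det_diagonal] at h2
    simp [w, Fin.prod_univ_succ] at h2
  have hPu : ∀ a b c d, IsUnit (P a b c d).det := by
    intro a b c d
    have h1 := congrArg Matrix.det (P_mul a b c d)
    rw [det_mul, det_one] at h1
    exact IsUnit.of_mul_eq_one _ h1
  refine ⟨fullRankTypical_of_bicoloring G6 col proper_col, ⟨?_, ?_⟩, ?_, ?_⟩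
  · obtain ⟨A, hA⟩ := exists_completion M6
    exact ⟨A, hA, rank_of_det A (hdet A hA)⟩
  · intro A hA
    exact (rank_of_det A (hdet A hA)).ge
  · intro A hA
    have h1 := congr_eq (A 1 2) (A 1 3) (A 1 4) (A 1 5)
    rw [← mat_of_completion A hA] at h1
    have hp : {i | 0 < w i} = ({0, 2, 3} : Set (Fin 6)) := by
      ext i
      fin_cases i <;> simp [w]
    have hq : {i | w i < 0} = ({1, 4, 5} : Set (Fin 6)) := by
      ext i
      fin_cases i <;> simp [w]
    constructor
    · rw [posEig_of_congr A _ hA.1 (hPu _ _ _ _) w h1, hp]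
      have : ({0, 2, 3} : Set (Fin 6)) = (({0, 2, 3} : Finset (Fin 6)) : Set (Fin 6)) := by simp
      rw [this, Set.ncard_coe_finset]; rfl
    · rw [negEig_of_congr A _ hA.1 (hPu _ _ _ _) w h1, hq]
      have : ({1, 4, 5} : Set (Fin 6)) = (({1, 4, 5} : Finset (Fin 6)) : Set (Fin 6)) := by simp
      rw [this, Set.ncard_coe_finset]; rfl
  · rintro ⟨c, hc, h3, -⟩
    have h12 := hc 1 2 ((not_mem_G6 1 2).2 (by decide))
    have h13 := hc 1 3 ((not_mem_G6 1 3).2 (by decide))
    have h14 := hc 1 4 ((not_mem_G6 1 4).2 (by decide))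
    have h15 := hc 1 5 ((not_mem_G6 1 5).2 (by decide))
    have key : ∀ c : Fin 6 → Bool, c 1 ≠ c 2 → c 1 ≠ c 3 → c 1 ≠ c 4 → c 1 ≠ c 5 →
        (univ.filter (fun i => c i = true)).card ≠ 3 := by decide +kernel
    exact key c h12 h13 h14 h15 h3

end Pool.Agent.Results.MP_97e4cf_co.BicoloringFails
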